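import Mathlib

/-!
# Evasiveness of rank and nullity conditions

An adversary argument for the query complexity of graph properties which are given by conditions on
the rank or the nullity in a matroid on the pairs of vertices.
-/

set_option autoImplicit false

namespace Pool.Agent.Q295.EV

open Finset

/-- Every decision strategy needs all queries. -/
def Evasive {n : ℕ} (P : SimpleGraph (Fin n) → Prop) : Prop :=
  ∀ σ : Finset (Sym2 (Fin n)) → SimpleGraph (Fin n) → Sym2 (Fin n),
    (∀ (Q : Finset (Sym2 (Fin n))) (G H : SimpleGraph (Fin n)),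
        (∀ e ∈ Q, (e ∈ G.edgeSet ↔ e ∈ H.edgeSet)) → σ Q G = σ Q H) →
    ∃ G H : SimpleGraph (Fin n),
      (∀ e ∈ (fun Q : Finset (Sym2 (Fin n)) => insert (σ Q G) Q)^[n.choose 2 - 1]
            (∅ : Finset (Sym2 (Fin n))),
          (e ∈ G.edgeSet ↔ e ∈ H.edgeSet)) ∧ P G ∧ ¬ P H

variable {n : ℕ}

/-- The pairs of distinct vertices. -/
def E (n : ℕ) : Finset (Sym2 (Fin n)) := univ.filter fun e => ¬ e.IsDiag

theorem mem_E {e : Sym2 (Fin n)} : e ∈ E n ↔ ¬ e.IsDiag := by simp [E]

theorem card_E : (E n).card = n.choose 2 := by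
  have h := Sym2.card_subtype_not_diag (α := Fin n)
  rw [Fintype.card_fin] at h
  rw [← h, Fintype.card_subtype]
  rfl

/-- The graph with a given set of edges. -/
def gr (A : Finset (Sym2 (Fin n))) : SimpleGraph (Fin n) :=
  SimpleGraph.fromEdgeSet (A : Set (Sym2 (Fin n)))

theorem mem_gr {A : Finset (Sym2 (Fin n))} (hA : A ⊆ E n) {e : Sym2 (Fin n)} :
    e ∈ (gr A).edgeSet ↔ e ∈ A := by
  unfold gr
  rw [SimpleGraph.edgeSet_fromEdgeSet]
  constructor
  · intro h
    exact h.1
  · intro h
    exact ⟨h, fun hd => (mem_E.1 (hA h)) (by simpa using hd)⟩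

/-- The final choices of the adversary. -/
theorem finish (R : Finset (Sym2 (Fin n)) → Finset (Sym2 (Fin n)) → Prop)
    (hstep : ∀ A D, R A D → A ⊆ E n → D ⊆ E n → Disjoint A D → ∀ e ∈ E n, e ∉ A → e ∉ D →
      (∃ f ∈ E n, f ≠ e ∧ f ∉ A ∧ f ∉ D) → R (insert e A) D ∨ R A (insert e D)) (m : ℕ) :
    ∀ A D, R A D → A ⊆ E n → D ⊆ E n → Disjoint A D → (E n \ (A ∪ D)).card = m + 1 →
      ∃ A' D' e, R A' D' ∧ A ⊆ A' ∧ D ⊆ D' ∧ A' ⊆ E n ∧ D' ⊆ E n ∧ Disjoint A' D' ∧ e ∈ E n ∧
        e ∉ A' ∧ e ∉ D' ∧ E n = insert e (A' ∪ D') := by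
  induction m with
  | zero =>
    intro A D hR hA hD hAD hc
    obtain ⟨e, he⟩ := card_eq_one.1 hc
    have heE : e ∈ E n \ (A ∪ D) := by rw [he]; exact mem_singleton_self _
    rw [mem_sdiff, mem_union, not_or] at heE
    refine ⟨A, D, e, hR, Subset.rfl, Subset.rfl, hA, hD, hAD, heE.1, heE.2.1, heE.2.2, ?_⟩
    ext z
    constructor
    · intro hz
      by_cases h : z ∈ A ∪ D
      · exact mem_insert_of_mem h
      · have : z ∈ E n \ (A ∪ D) := mem_sdiff.2 ⟨hz, h⟩
        rw [he, mem_singleton] at this
        exact this ▸ mem_insert_self _ _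
    · intro hz
      rcases mem_insert.1 hz with h | h
      · exact h ▸ heE.1
      · rcases mem_union.1 h with h | h
        · exact hA h
        · exact hD h
  | succ m ih =>
    intro A D hR hA hD hAD hc
    have hc2 : 1 < (E n \ (A ∪ D)).card := by omega
    obtain ⟨e, he, f, hf, hef⟩ := one_lt_card.1 hc2
    rw [mem_sdiff, mem_union, not_or] at he hf
    rcases hstep A D hR hA hD hAD e he.1 he.2.1 he.2.2 ⟨f, hf.1, hef.symm, hf.2.1, hf.2.2⟩ with h | h
    · have hc' : (E n \ (insert e A ∪ D)).card = m + 1 := by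
        have : E n \ (insert e A ∪ D) = (E n \ (A ∪ D)).erase e := by
          ext z; simp only [mem_sdiff, mem_union, mem_insert, mem_erase]; tauto
        rw [this, card_erase_of_mem (mem_sdiff.2 ⟨he.1, by rw [mem_union, not_or]; exact he.2⟩), hc]
        omega
      obtain ⟨A', D', e', h1, h2, h3, h4⟩ := ih (insert e A) D h (insert_subset he.1 hA) hD
        (by rw [disjoint_insert_left]; exact ⟨he.2.2, hAD⟩) hc'
      exact ⟨A', D', e', h1, (subset_insert _ _).trans h2, h3, h4⟩
    · have hc' : (E n \ (A ∪ insert e D)).card = m + 1 := by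
        have : E n \ (A ∪ insert e D) = (E n \ (A ∪ D)).erase e := by
          ext z; simp only [mem_sdiff, mem_union, mem_insert, mem_erase]; tauto
        rw [this, card_erase_of_mem (mem_sdiff.2 ⟨he.1, by rw [mem_union, not_or]; exact he.2⟩), hc]
        omega
      obtain ⟨A', D', e', h1, h2, h3, h4⟩ := ih A (insert e D) h hA (insert_subset he.1 hD)
        (by rw [disjoint_insert_right]; exact ⟨he.2.1, hAD⟩) hc'
      exact ⟨A', D', e', h1, h2, (subset_insert _ _).trans h3, h4⟩

/-- The adversary argument. -/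
theorem engine (P : SimpleGraph (Fin n) → Prop)
    (R : Finset (Sym2 (Fin n)) → Finset (Sym2 (Fin n)) → Prop) (h0 : R ∅ ∅)
    (hE : 1 ≤ n.choose 2)
    (hstep : ∀ A D, R A D → A ⊆ E n → D ⊆ E n → Disjoint A D → ∀ e ∈ E n, e ∉ A → e ∉ D →
      (∃ f ∈ E n, f ≠ e ∧ f ∉ A ∧ f ∉ D) → R (insert e A) D ∨ R A (insert e D))
    (hfin : ∀ A D, R A D → A ⊆ E n → D ⊆ E n → Disjoint A D → ∀ e ∈ E n, e ∉ A → e ∉ D →
      E n = insert e (A ∪ D) → (P (gr (insert e A)) ∧ ¬ P (gr A)) ∨
        (P (gr A) ∧ ¬ P (gr (insert e A)))) : Evasive P := by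
  classical
  intro s hs
  -- the state of the adversary after `m` queries
  have key : ∀ m, m ≤ n.choose 2 - 1 → ∃ Q A : Finset (Sym2 (Fin n)), A ⊆ Q ∧ A ⊆ E n ∧
      Q.card ≤ m ∧ R A ((Q ∩ E n) \ A) ∧
      ∀ G : SimpleGraph (Fin n), (∀ e ∈ Q, (e ∈ G.edgeSet ↔ e ∈ A)) →
        (fun Q : Finset (Sym2 (Fin n)) => insert (s Q G) Q)^[m] (∅ : Finset (Sym2 (Fin n))) = Q := by
    intro m
    induction m with
    | zero =>
      intro _
      exact ⟨∅, ∅, Subset.rfl, empty_subset _, by simp, by simpa using h0, fun G _ => rfl⟩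
    | succ m ih =>
      intro hm
      obtain ⟨Q, A, h1, h2, h3, h4, h5⟩ := ih (by omega)
      set e := s Q (gr A) with he
      have hsame : ∀ G : SimpleGraph (Fin n), (∀ f ∈ Q, (f ∈ G.edgeSet ↔ f ∈ A)) → s Q G = e := by
        intro G hG
        rw [he]
        apply hs
        intro f hf
        rw [hG f hf, mem_gr h2]
      by_cases hcase : e ∈ E n ∧ e ∉ Q
      · obtain ⟨heE, heQ⟩ := hcase
        have heA : e ∉ A := fun h => heQ (h1 h)
        have hcard : 1 < (E n \ (A ∪ (Q ∩ E n) \ A)).card := by
          have hsub : (E n \ Q) ⊆ E n \ (A ∪ (Q ∩ E n) \ A) := by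
            intro z hz
            rw [mem_sdiff] at hz ⊢
            refine ⟨hz.1, fun h => ?_⟩
            rcases mem_union.1 h with h | h
            · exact hz.2 (h1 h)
            · exact hz.2 (mem_inter.1 (mem_sdiff.1 h).1).1
          have h6 := card_le_card hsub
          have h7 : (E n).card - Q.card ≤ (E n \ Q).card := le_card_sdiff _ _
          rw [card_E] at h7
          omega
        have hex : ∃ f ∈ E n, f ≠ e ∧ f ∉ A ∧ f ∉ (Q ∩ E n) \ A := by
          obtain ⟨f, hf, hfe⟩ := exists_mem_ne hcard e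
          rw [mem_sdiff, mem_union, not_or] at hf
          exact ⟨f, hf.1, hfe, hf.2⟩
        rcases hstep A _ h4 h2 (fun z hz => (mem_inter.1 (mem_sdiff.1 hz).1).2) disjoint_sdiff e heE
          heA (fun h => heQ (mem_inter.1 (mem_sdiff.1 h).1).1) hex with h | h
        · refine ⟨insert e Q, insert e A, insert_subset_insert _ h1, insert_subset heE h2, ?_, ?_, ?_⟩
          · exact (card_insert_le _ _).trans (by omega)
          · have : (insert e Q ∩ E n) \ insert e A = (Q ∩ E n) \ A := by
              ext z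
              simp only [mem_sdiff, mem_inter, mem_insert]
              constructor
              · rintro ⟨⟨h1 | h1, h2⟩, h3⟩
                · exact absurd (Or.inl h1) h3
                · exact ⟨⟨h1, h2⟩, fun h => h3 (Or.inr h)⟩
              · rintro ⟨⟨h1, h2⟩, h3⟩
                refine ⟨⟨Or.inr h1, h2⟩, ?_⟩
                rintro (h | h)
                · exact heQ (h ▸ h1)
                · exact h3 h
            rw [this]
            exact h
          · intro G hG
            have hG' : ∀ f ∈ Q, (f ∈ G.edgeSet ↔ f ∈ A) := by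
              intro f hf
              rw [hG f (mem_insert_of_mem hf), mem_insert]
              constructor
              · rintro (h | h)
                · exact absurd hf (h ▸ heQ)
                · exact h
              · exact Or.inr
            rw [Function.iterate_succ_apply', h5 G hG', hsame G hG']
        · refine ⟨insert e Q, A, h1.trans (subset_insert _ _), h2, ?_, ?_, ?_⟩
          · exact (card_insert_le _ _).trans (by omega)
          · have : (insert e Q ∩ E n) \ A = insert e ((Q ∩ E n) \ A) := by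
              ext z
              simp only [mem_sdiff, mem_inter, mem_insert]
              constructor
              · rintro ⟨⟨h1 | h1, h2⟩, h3⟩
                · exact Or.inl h1
                · exact Or.inr ⟨⟨h1, h2⟩, h3⟩
              · rintro (h | ⟨⟨h1, h2⟩, h3⟩)
                · exact ⟨⟨Or.inl h, h ▸ heE⟩, h ▸ heA⟩
                · exact ⟨⟨Or.inr h1, h2⟩, h3⟩
            rw [this]
            exact h
          · intro G hG
            have hG' : ∀ f ∈ Q, (f ∈ G.edgeSet ↔ f ∈ A) := fun f hf => hG f (mem_insert_of_mem hf)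
            rw [Function.iterate_succ_apply', h5 G hG', hsame G hG']
      · refine ⟨insert e Q, A, h1.trans (subset_insert _ _), h2, ?_, ?_, ?_⟩
        · exact (card_insert_le _ _).trans (by omega)
        · have : (insert e Q ∩ E n) \ A = (Q ∩ E n) \ A := by
            ext z
            simp only [mem_sdiff, mem_inter, mem_insert]
            constructor
            · rintro ⟨⟨h1 | h1, h2⟩, h3⟩
              · by_cases hq : z ∈ Q
                · exact ⟨⟨hq, h2⟩, h3⟩
                · exact absurd ⟨h1 ▸ h2, h1 ▸ hq⟩ hcase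
              · exact ⟨⟨h1, h2⟩, h3⟩
            · rintro ⟨⟨h1, h2⟩, h3⟩
              exact ⟨⟨Or.inr h1, h2⟩, h3⟩
          rw [this]
          exact h4
        · intro G hG
          have hG' : ∀ f ∈ Q, (f ∈ G.edgeSet ↔ f ∈ A) := fun f hf => hG f (mem_insert_of_mem hf)
          rw [Function.iterate_succ_apply', h5 G hG', hsame G hG']
  obtain ⟨Q, A, h1, h2, h3, h4, h5⟩ := key (n.choose 2 - 1) le_rfl
  set D := (Q ∩ E n) \ A with hD
  have hDE : D ⊆ E n := fun z hz => (mem_inter.1 (mem_sdiff.1 hz).1).2
  have hcard : 1 ≤ (E n \ (A ∪ D)).card := by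
    have hsub : (E n \ Q) ⊆ E n \ (A ∪ D) := by
      intro z hz
      rw [mem_sdiff] at hz ⊢
      refine ⟨hz.1, fun h => ?_⟩
      rcases mem_union.1 h with h | h
      · exact hz.2 (h1 h)
      · exact hz.2 (mem_inter.1 (mem_sdiff.1 h).1).1
    have h6 := card_le_card hsub
    have h7 : (E n).card - Q.card ≤ (E n \ Q).card := le_card_sdiff _ _
    rw [card_E] at h7
    omega
  obtain ⟨A', D', e, g1, g2, g3, g4, g5, g6, g7, g8, g9, g10⟩ := finish R hstep
    ((E n \ (A ∪ D)).card - 1) A D h4 h2 hDE disjoint_sdiff (by omega)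
  -- elements of `Q` are decided
  have hQA : ∀ f ∈ Q, (f ∈ A' ↔ f ∈ A) := by
    intro f hf
    constructor
    · intro hfA'
      by_contra hfA
      have : f ∈ D := by
        rw [hD, mem_sdiff, mem_inter]
        exact ⟨⟨hf, g4 hfA'⟩, hfA⟩
      exact disjoint_left.1 g6 hfA' (g3 this)
    · exact fun h => g2 h
  have heQ : e ∉ Q := by
    intro heQ
    by_cases heA : e ∈ A
    · exact g8 (g2 heA)
    · exact g9 (g3 (by rw [hD, mem_sdiff, mem_inter]; exact ⟨⟨heQ, g7⟩, heA⟩))
  have hc0 : ∀ f ∈ Q, (f ∈ (gr A').edgeSet ↔ f ∈ A) := fun f hf => by rw [mem_gr g4, hQA f hf]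
  have hins : insert e A' ⊆ E n := insert_subset g7 g4
  have hc1 : ∀ f ∈ Q, (f ∈ (gr (insert e A')).edgeSet ↔ f ∈ A) := fun f hf => by
    rw [mem_gr hins, mem_insert, ← hQA f hf]
    constructor
    · rintro (h | h)
      · exact absurd hf (h ▸ heQ)
      · exact h
    · exact Or.inr
  rcases hfin A' D' g1 g4 g5 g6 e g7 g8 g9 g10 with h | h
  · refine ⟨gr (insert e A'), gr A', ?_, h.1, h.2⟩
    rw [h5 _ hc1]
    intro f hf
    rw [hc1 f hf, hc0 f hf]
  · refine ⟨gr A', gr (insert e A'), ?_, h.1, h.2⟩
    rw [h5 _ hc0]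
    intro f hf
    rw [hc1 f hf, hc0 f hf]

open Classical in
/-- The set of edges of a graph, as a finset. -/
noncomputable def edges (G : SimpleGraph (Fin n)) : Finset (Sym2 (Fin n)) :=
  univ.filter fun e => e ∈ G.edgeSet

theorem edges_gr {A : Finset (Sym2 (Fin n))} (hA : A ⊆ E n) : edges (gr A) = A := by
  classical
  ext e
  simp [edges, mem_gr hA]

theorem edges_sub (G : SimpleGraph (Fin n)) : edges G ⊆ E n := by
  classical
  intro e he
  rw [edges, mem_filter] at he
  exact mem_E.2 (G.not_isDiag_of_mem_edgeSet he.2)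

/-- The rank functions of matroids on the pairs. -/
structure IsRank (r : Finset (Sym2 (Fin n)) → ℕ) : Prop where
  le_card : ∀ S, r S ≤ S.card
  mono : ∀ S T, S ⊆ T → r S ≤ r T
  submod : ∀ S T, r (S ∪ T) + r (S ∩ T) ≤ r S + r T

theorem IsRank.insert_le {r : Finset (Sym2 (Fin n)) → ℕ} (h : IsRank r) (e : Sym2 (Fin n))
    (S : Finset (Sym2 (Fin n))) : r (insert e S) ≤ r S + 1 := by
  have h1 := h.submod {e} S
  have h2 := h.le_card {e}
  rw [card_singleton] at h2
  rw [insert_eq]
  omega

/-- Truncation. -/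
theorem IsRank.trunc {r : Finset (Sym2 (Fin n)) → ℕ} (h : IsRank r) (k : ℕ) :
    IsRank (fun S => min (r S) k) := by
  refine ⟨fun S => (min_le_left _ _).trans (h.le_card S), fun S T hST => ?_, fun S T => ?_⟩
  · have := h.mono S T hST
    omega
  · have h1 := h.submod S T
    have h2 := h.mono S (S ∪ T) subset_union_left
    have h3 := h.mono T (S ∪ T) subset_union_right
    have h4 := h.mono (S ∩ T) S inter_subset_left
    have h5 := h.mono (S ∩ T) T inter_subset_right
    omega

/-- The dual. -/
theorem IsRank.dual {r : Finset (Sym2 (Fin n)) → ℕ} (h : IsRank r) :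
    IsRank (fun S => (S ∩ E n).card + r (E n \ S) - r (E n)) := by
  have key : ∀ S : Finset (Sym2 (Fin n)), r (E n) ≤ (S ∩ E n).card + r (E n \ S) := by
    intro S
    have h1 := h.submod (S ∩ E n) (E n \ S)
    have h2 := h.le_card (S ∩ E n)
    have h3 : S ∩ E n ∪ E n \ S = E n := by
      ext z; simp only [mem_union, mem_inter, mem_sdiff]; tauto
    rw [h3] at h1
    omega
  refine ⟨fun S => ?_, fun S T hST => ?_, fun S T => ?_⟩
  · have h1 := h.mono (E n \ S) (E n) sdiff_subset
    have h2 := card_le_card (inter_subset_left : S ∩ E n ⊆ S)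
    omega
  · -- `r (E \ S) ≤ r (E \ T) + |(T \ S) ∩ E|`
    have h1 := h.submod (E n \ T) ((T \ S) ∩ E n)
    have h2 := h.le_card ((T \ S) ∩ E n)
    have h3 : E n \ T ∪ ((T \ S) ∩ E n) = E n \ S := by
      ext z; simp only [mem_union, mem_inter, mem_sdiff]
      constructor
      · rintro (⟨a, b⟩ | ⟨⟨a, b⟩, c⟩)
        · exact ⟨a, fun h => b (hST h)⟩
        · exact ⟨c, b⟩
      · rintro ⟨a, b⟩
        by_cases hT : z ∈ T
        · exact Or.inr ⟨⟨hT, b⟩, a⟩
        · exact Or.inl ⟨a, hT⟩
    rw [h3] at h1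
    have h4 : (T ∩ E n).card = (S ∩ E n).card + ((T \ S) ∩ E n).card := by
      rw [← card_union_of_disjoint]
      · congr 1
        ext z; simp only [mem_union, mem_inter, mem_sdiff]
        constructor
        · rintro ⟨a, b⟩
          by_cases hS : z ∈ S
          · exact Or.inl ⟨hS, b⟩
          · exact Or.inr ⟨⟨a, hS⟩, b⟩
        · rintro (⟨a, b⟩ | ⟨⟨a, b⟩, c⟩)
          · exact ⟨hST a, b⟩
          · exact ⟨a, c⟩
      · rw [disjoint_left]
        intro z hz1 hz2
        exact (mem_sdiff.1 (mem_inter.1 hz2).1).2 (mem_inter.1 hz1).1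
    have h5 := key S
    have h6 := key T
    omega
  · have h1 := h.submod (E n \ S) (E n \ T)
    have h2 : E n \ S ∪ E n \ T = E n \ (S ∩ T) := by
      ext z; simp only [mem_union, mem_inter, mem_sdiff]; tauto
    have h3 : (E n \ S) ∩ (E n \ T) = E n \ (S ∪ T) := by
      ext z; simp only [mem_union, mem_inter, mem_sdiff]; tauto
    rw [h2, h3] at h1
    have h4 : ((S ∪ T) ∩ E n).card + ((S ∩ T) ∩ E n).card = (S ∩ E n).card + (T ∩ E n).card := by
      have e1 : (S ∪ T) ∩ E n = (S ∩ E n) ∪ (T ∩ E n) := by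
        ext z; simp only [mem_union, mem_inter]; tauto
      have e2 : (S ∩ T) ∩ E n = (S ∩ E n) ∩ (T ∩ E n) := by
        ext z; simp only [mem_inter]; tauto
      rw [e1, e2, card_union_add_card_inter]
    have h5 := key (S ∪ T)
    have h6 := key (S ∩ T)
    have h7 := key S
    have h8 := key T
    omega

/-- States of the adversary: the rank of the pairs that are not excluded is full, and every open pair
increases the rank of the accepted pairs. -/
def St (r : Finset (Sym2 (Fin n)) → ℕ) (A D : Finset (Sym2 (Fin n))) : Prop :=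
  r (E n \ D) = r (E n) ∧ ∀ e ∈ E n, e ∉ A → e ∉ D → r A < r (insert e A)

theorem st_step {r : Finset (Sym2 (Fin n)) → ℕ} (h : IsRank r) {A D : Finset (Sym2 (Fin n))}
    (hS : St r A D) (hA : A ⊆ E n) (hAD : Disjoint A D) {e : Sym2 (Fin n)} (he : e ∈ E n)
    (heA : e ∉ A) (heD : e ∉ D) : St r (insert e A) D ∨ St r A (insert e D) := by
  by_cases hc : r (E n \ insert e D) = r (E n)
  · right
    refine ⟨hc, fun f hf hfA hfD => hS.2 f hf hfA fun h => hfD (mem_insert_of_mem h)⟩
  · left
    refine ⟨hS.1, fun f hf hfA hfD => ?_⟩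
    rw [mem_insert, not_or] at hfA
    have hfe : f ≠ e := hfA.1
    -- `e` is a coloop of the pairs that are not excluded
    have h1 := h.mono (E n \ insert e D) (E n) sdiff_subset
    have h2 : insert e (E n \ insert e D) = E n \ D := by
      ext z; simp only [mem_insert, mem_sdiff, not_or]
      constructor
      · rintro (h | ⟨a, b, c⟩)
        · exact h ▸ ⟨he, heD⟩
        · exact ⟨a, c⟩
      · rintro ⟨a, b⟩
        by_cases hz : z = e
        · exact Or.inl hz
        · exact Or.inr ⟨a, hz, b⟩
    have h3 := h.submod (insert e (insert f A)) (E n \ insert e D)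
    have h4 : insert e (insert f A) ∪ E n \ insert e D = E n \ D := by
      rw [← h2]
      ext z; simp only [mem_insert, mem_union, mem_sdiff, not_or]
      constructor
      · rintro ((h | h | h) | h)
        · exact Or.inl h
        · exact Or.inr ⟨h ▸ hf, h ▸ hfe, h ▸ hfD⟩
        · exact Or.inr ⟨hA h, fun hz => heA (hz ▸ h), disjoint_left.1 hAD h⟩
        · exact Or.inr h
      · rintro (h | h)
        · exact Or.inl (Or.inl h)
        · exact Or.inr h
    have h5 : insert e (insert f A) ∩ (E n \ insert e D) = insert f A := by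
      ext z; simp only [mem_insert, mem_inter, mem_sdiff, not_or]
      constructor
      · rintro ⟨h | h, a, b, c⟩
        · exact absurd h b
        · exact h
      · rintro (h | h)
        · exact ⟨Or.inr (Or.inl h), h ▸ hf, h ▸ hfe, h ▸ hfD⟩
        · exact ⟨Or.inr (Or.inr h), hA h, fun hz => heA (hz ▸ h), disjoint_left.1 hAD h⟩
    rw [h4, h5, hS.1] at h3
    have h6 := hS.2 f hf hfA.2 hfD
    have h7 := h.insert_le e A
    have h8 : insert f (insert e A) = insert e (insert f A) := Finset.insert_comm _ _ _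
    rw [h8]
    omega

theorem st_fin {r : Finset (Sym2 (Fin n)) → ℕ} {A D : Finset (Sym2 (Fin n))}
    (hS : St r A D) (hAD : Disjoint A D) {e : Sym2 (Fin n)} (he : e ∈ E n)
    (heA : e ∉ A) (heD : e ∉ D) (hE : E n = insert e (A ∪ D)) :
    r (insert e A) = r (E n) ∧ r A < r (E n) := by
  have h1 : E n \ D = insert e A := by
    ext z
    rw [mem_sdiff, hE]
    simp only [mem_insert, mem_union]
    constructor
    · rintro ⟨h | h | h, hD⟩
      · exact Or.inl h
      · exact Or.inr h
      · exact absurd h hD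
    · rintro (h | h)
      · exact ⟨Or.inl h, h ▸ heD⟩
      · exact ⟨Or.inr (Or.inl h), disjoint_left.1 hAD h⟩
  have h2 := hS.1
  rw [h1] at h2
  exact ⟨h2, h2 ▸ hS.2 e he heA heD⟩

/-- The rank condition. -/
theorem rank_evasive {r : Finset (Sym2 (Fin n)) → ℕ} (h : IsRank r)
    (hl : ∀ e ∈ E n, 1 ≤ r {e}) (k : ℕ) (hk : 1 ≤ k) (hkr : k ≤ r (E n)) :
    Evasive (fun G : SimpleGraph (Fin n) => k ≤ r (edges G)) := by
  have ht := h.trunc k
  have hE : 1 ≤ n.choose 2 := by
    rw [← card_E]
    exact hk.trans (hkr.trans (h.le_card _))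
  have h00 : r ∅ = 0 := by simpa using h.le_card ∅
  refine engine _ (fun A D => St (fun S => min (r S) k) A D) ?_ hE ?_ ?_
  · refine ⟨by simp, fun e he _ _ => ?_⟩
    have := hl e he
    simp only [insert_empty_eq, h00]
    omega
  · intro A D hS hA _ hAD e he heA heD _
    exact st_step ht hS hA hAD he heA heD
  · intro A D hS hA _ hAD e he heA heD hEE
    obtain ⟨h1, h2⟩ := st_fin hS hAD he heA heD hEE
    left
    rw [edges_gr (insert_subset he hA), edges_gr hA]
    omega

/-- The nullity condition. -/
theorem nullity_evasive {r : Finset (Sym2 (Fin n)) → ℕ} (h : IsRank r)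
    (hl : ∀ e ∈ E n, r (E n \ {e}) = r (E n)) (k : ℕ) (hk : 1 ≤ k) (hkr : k + r (E n) ≤ n.choose 2) :
    Evasive (fun G : SimpleGraph (Fin n) => k + r (edges G) ≤ (edges G).card) := by
  set rd : Finset (Sym2 (Fin n)) → ℕ := fun S => (S ∩ E n).card + r (E n \ S) - r (E n) with hrd
  have hd : IsRank rd := h.dual
  have hE : 1 ≤ n.choose 2 := by omega
  have hdE : rd (E n) = n.choose 2 - r (E n) := by
    rw [hrd]
    simp only [inter_self, sdiff_self, card_E]
    have h00 : r ∅ = 0 := by simpa using h.le_card ∅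
    have : (∅ : Finset (Sym2 (Fin n))) = ⊥ := rfl
    rw [← this, h00]
    omega
  set k' := rd (E n) + 1 - k with hk'
  have ht := hd.trunc k'
  refine engine _ (fun A D => St (fun S => min (rd S) k') D A) ?_ hE ?_ ?_
  · refine ⟨by simp, fun e he _ _ => ?_⟩
    have h1 := hl e he
    have h2 : rd {e} = 1 := by
      rw [hrd]
      simp only
      rw [singleton_inter_of_mem he, card_singleton, h1]
      omega
    have h3 : rd ∅ = 0 := by simpa using hd.le_card ∅
    simp only [insert_empty_eq, h2, h3]
    omega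
  · intro A D hS _ hD hAD e he heA heD _
    exact (st_step ht hS hD hAD.symm he heD heA).symm
  · intro A D hS hA hD hAD e he heA heD hEE
    obtain ⟨h1, h2⟩ := st_fin hS hAD.symm he heD heA (by rw [hEE, union_comm A D])
    left
    rw [edges_gr (insert_subset he hA), edges_gr hA]
    -- `D = E \ (insert e A)` and `insert e D = E \ A`
    have e1 : E n \ D = insert e A := by
      ext z
      rw [mem_sdiff, hEE]
      simp only [mem_insert, mem_union]
      constructor
      · rintro ⟨h | h | h, hD⟩
        · exact Or.inl h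
        · exact Or.inr h
        · exact absurd h hD
      · rintro (h | h)
        · exact ⟨Or.inl h, h ▸ heD⟩
        · exact ⟨Or.inr (Or.inl h), disjoint_left.1 hAD h⟩
    have e2 : E n \ insert e D = A := by
      ext z
      rw [mem_sdiff, hEE]
      simp only [mem_insert, mem_union, not_or]
      constructor
      · rintro ⟨h | h | h, a, b⟩
        · exact absurd h a
        · exact h
        · exact absurd h b
      · intro h
        exact ⟨Or.inr (Or.inl h), fun hz => heA (hz ▸ h), disjoint_left.1 hAD h⟩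
    have c1 : (D ∩ E n).card = n.choose 2 - (insert e A).card := by
      rw [inter_eq_left.2 hD, ← e1, card_sdiff_of_subset hD, card_E]
      have := card_le_card hD
      rw [card_E] at this
      omega
    have c2 : (insert e D ∩ E n).card = n.choose 2 - A.card := by
      rw [inter_eq_left.2 (insert_subset he hD), ← e2, card_sdiff_of_subset (insert_subset he hD),
        card_E]
      have := card_le_card (insert_subset he hD)
      rw [card_E] at this
      omega
    have c3 : (insert e A).card ≤ n.choose 2 := by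
      rw [← card_E]
      exact card_le_card (insert_subset he hA)
    have c4 : A.card ≤ n.choose 2 := by
      rw [← card_E]
      exact card_le_card hA
    have r1 : rd D = (D ∩ E n).card + r (E n \ D) - r (E n) := rfl
    have r2 : rd (insert e D) = (insert e D ∩ E n).card + r (E n \ insert e D) - r (E n) := rfl
    rw [c1, e1] at r1
    rw [c2, e2] at r2
    have m1 := h.mono (insert e A) (E n) (insert_subset he hA)
    have m2 := h.mono A (E n) hA
    have m3 := h.le_card A
    have m4 := h.le_card (insert e A)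
    have key : ∀ S : Finset (Sym2 (Fin n)), S ⊆ E n → r (E n) ≤ (n.choose 2 - S.card) + r S := by
      intro S hS
      have h1 := h.submod S (E n \ S)
      have h2 := h.le_card (E n \ S)
      rw [union_sdiff_of_subset hS] at h1
      rw [card_sdiff_of_subset hS, card_E] at h2
      omega
    have k1 := key A hA
    have k2 := key _ (insert_subset he hA)
    constructor
    · omega
    · omega

end Pool.Agent.Q295.EV
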