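import Pool.Agent.Q295.EV.Rank

/-!
# Evasiveness of rank conditions: invariant rank functions, submodular functions, rigidity
-/

set_option autoImplicit false

namespace Pool.Agent.Q295.EV

open Finset

variable {n : ℕ}

/-- `r` is invariant under the permutations of the vertices. -/
def Inv (r : Finset (Sym2 (Fin n)) → ℕ) : Prop :=
  ∀ (σ : Equiv.Perm (Fin n)) (S : Finset (Sym2 (Fin n))), r (S.image (Sym2.map σ)) = r S

theorem exists_perm {e f : Sym2 (Fin n)} (he : ¬ e.IsDiag) (hf : ¬ f.IsDiag) :
    ∃ σ : Equiv.Perm (Fin n), Sym2.map σ e = f := by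
  induction e using Sym2.ind with
  | _ a b =>
    induction f using Sym2.ind with
    | _ c d =>
      rw [Sym2.mk_isDiag_iff] at he hf
      refine ⟨(Equiv.swap (Equiv.swap a c b) d) * (Equiv.swap a c), ?_⟩
      rw [Sym2.map_mk]
      have h1 : Equiv.swap a c b ≠ c := by
        intro h
        have := congrArg (Equiv.swap a c) h
        rw [Equiv.swap_apply_self, Equiv.swap_apply_right] at this
        exact he this.symm
      have h2 : ((Equiv.swap (Equiv.swap a c b) d) * (Equiv.swap a c)) a = c := by
        rw [Equiv.Perm.mul_apply, Equiv.swap_apply_left,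
          Equiv.swap_apply_of_ne_of_ne h1.symm hf]
      have h3 : ((Equiv.swap (Equiv.swap a c b) d) * (Equiv.swap a c)) b = d := by
        rw [Equiv.Perm.mul_apply, Equiv.swap_apply_left]
      rw [h2, h3]

theorem image_E (σ : Equiv.Perm (Fin n)) : (E n).image (Sym2.map σ) = E n := by
  ext e
  rw [mem_image, mem_E]
  constructor
  · rintro ⟨f, hf, rfl⟩
    rw [mem_E] at hf
    intro h
    apply hf
    induction f using Sym2.ind with
    | _ a b =>
      rw [Sym2.map_mk, Sym2.mk_isDiag_iff] at h
      rw [Sym2.mk_isDiag_iff]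
      exact σ.injective h
  · intro he
    refine ⟨Sym2.map σ.symm e, ?_, ?_⟩
    · rw [mem_E]
      intro h
      apply he
      induction e using Sym2.ind with
      | _ a b =>
        rw [Sym2.map_mk, Sym2.mk_isDiag_iff] at h
        rw [Sym2.mk_isDiag_iff]
        exact σ.symm.injective h
    · rw [Sym2.map_map]
      have : (⇑σ ∘ ⇑σ.symm) = id := by
        funext x; simp
      rw [this, Sym2.map_id, id]

theorem rank_inv {r : Finset (Sym2 (Fin n)) → ℕ} (h : IsRank r) (hi : Inv r) (k : ℕ)
    (h1 : ∃ G : SimpleGraph (Fin n), k ≤ r (edges G))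
    (h2 : ∃ G : SimpleGraph (Fin n), ¬ k ≤ r (edges G)) :
    Evasive (fun G : SimpleGraph (Fin n) => k ≤ r (edges G)) := by
  obtain ⟨G, hG⟩ := h1
  obtain ⟨H, hH⟩ := h2
  have hk : 1 ≤ k := by omega
  have hkr : k ≤ r (E n) := hG.trans (h.mono _ _ (edges_sub G))
  refine rank_evasive h ?_ k hk hkr
  intro e he
  by_contra hcon
  have h0 : ∀ f ∈ E n, r {f} = 0 := by
    intro f hf
    obtain ⟨σ, hσ⟩ := exists_perm (mem_E.1 he) (mem_E.1 hf)
    have := hi σ {e}
    rw [image_singleton, hσ] at this
    omega
  have h00 : r ∅ = 0 := by simpa using h.le_card ∅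
  have hall : ∀ S : Finset (Sym2 (Fin n)), S ⊆ E n → r S = 0 := by
    intro S
    induction S using Finset.induction_on with
    | empty => intro _; exact h00
    | insert a S ha ih =>
      intro hS
      have i1 := ih ((subset_insert _ _).trans hS)
      have i2 := h0 a (hS (mem_insert_self _ _))
      have i3 := h.submod {a} S
      rw [← insert_eq] at i3
      omega
  have := hall (E n) Subset.rfl
  omega

theorem nullity_inv {r : Finset (Sym2 (Fin n)) → ℕ} (h : IsRank r) (hi : Inv r) (k : ℕ)
    (h1 : ∃ G : SimpleGraph (Fin n), k + r (edges G) ≤ (edges G).card)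
    (h2 : ∃ G : SimpleGraph (Fin n), ¬ k + r (edges G) ≤ (edges G).card) :
    Evasive (fun G : SimpleGraph (Fin n) => k + r (edges G) ≤ (edges G).card) := by
  obtain ⟨G, hG⟩ := h1
  obtain ⟨H, hH⟩ := h2
  have hk : 1 ≤ k := by
    have := h.le_card (edges H)
    omega
  have hkr : k + r (E n) ≤ n.choose 2 := by
    have i1 := h.submod (edges G) (E n \ edges G)
    rw [union_sdiff_of_subset (edges_sub G)] at i1
    have i2 := h.le_card (E n \ edges G)
    rw [card_sdiff_of_subset (edges_sub G), card_E] at i2
    have i3 := card_le_card (edges_sub G)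
    rw [card_E] at i3
    omega
  refine nullity_evasive h ?_ k hk hkr
  intro e he
  by_contra hcon
  have hlt : r (E n \ {e}) < r (E n) := lt_of_le_of_ne (h.mono _ _ sdiff_subset) hcon
  have h0 : ∀ f ∈ E n, r (E n \ {f}) + 1 ≤ r (E n) := by
    intro f hf
    obtain ⟨σ, hσ⟩ := exists_perm (mem_E.1 he) (mem_E.1 hf)
    have := hi σ (E n \ {e})
    rw [image_sdiff _ _ (Sym2.map.injective σ.injective), image_E, image_singleton, hσ] at this
    omega
  have hall : ∀ S : Finset (Sym2 (Fin n)), S ⊆ E n → r (E n \ S) + S.card ≤ r (E n) := by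
    intro S
    induction S using Finset.induction_on with
    | empty => intro _; simp
    | insert a S ha ih =>
      intro hS
      have i1 := ih ((subset_insert _ _).trans hS)
      have haE := hS (mem_insert_self _ _)
      have i2 := h0 a haE
      have i3 := h.submod (E n \ S) (E n \ {a})
      have e1 : E n \ S ∪ E n \ {a} = E n := by
        ext z
        simp only [mem_union, mem_sdiff, mem_singleton]
        constructor
        · rintro (h | h) <;> exact h.1
        · intro hz
          by_cases hza : z = a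
          · exact Or.inl ⟨hz, hza ▸ ha⟩
          · exact Or.inr ⟨hz, hza⟩
      have e2 : (E n \ S) ∩ (E n \ {a}) = E n \ insert a S := by
        ext z
        simp only [mem_inter, mem_sdiff, mem_singleton, mem_insert, not_or]
        tauto
      rw [e1, e2] at i3
      rw [card_insert_of_notMem ha]
      omega
  have := hall (E n) Subset.rfl
  rw [card_E] at this
  omega

/-- The rank function induced by a submodular function. -/
noncomputable def ind (g : Finset (Sym2 (Fin n)) → ℕ) (S : Finset (Sym2 (Fin n))) : ℕ :=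
  (S.powerset.image fun T => g T + (S \ T).card).min' ((powerset_nonempty S).image _)

theorem ind_le (g : Finset (Sym2 (Fin n)) → ℕ) {S T : Finset (Sym2 (Fin n))} (hT : T ⊆ S) :
    ind g S ≤ g T + (S \ T).card :=
  min'_le _ _ (mem_image_of_mem _ (mem_powerset.2 hT))

theorem ind_spec (g : Finset (Sym2 (Fin n)) → ℕ) (S : Finset (Sym2 (Fin n))) :
    ∃ T ⊆ S, ind g S = g T + (S \ T).card := by
  have h := min'_mem (S.powerset.image fun T => g T + (S \ T).card) ((powerset_nonempty S).image _)
  rw [mem_image] at h
  obtain ⟨T, hT, he⟩ := h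
  exact ⟨T, mem_powerset.1 hT, he.symm⟩

theorem ind_isRank {g : Finset (Sym2 (Fin n)) → ℕ} (h0 : g ∅ = 0)
    (hm : ∀ S T, S ⊆ T → g S ≤ g T) (hs : ∀ S T, g (S ∪ T) + g (S ∩ T) ≤ g S + g T) :
    IsRank (ind g) := by
  refine ⟨fun S => ?_, fun S T hST => ?_, fun S T => ?_⟩
  · have := ind_le g (empty_subset S)
    rw [h0, sdiff_empty] at this
    omega
  · obtain ⟨U, hU, he⟩ := ind_spec g T
    have h1 := ind_le g (inter_subset_left : S ∩ U ⊆ S)
    have h2 := hm (S ∩ U) U inter_subset_right
    have h3 : (S \ (S ∩ U)).card ≤ (T \ U).card := by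
      apply card_le_card
      intro z hz
      rw [mem_sdiff, mem_inter, not_and] at hz
      exact mem_sdiff.2 ⟨hST hz.1, hz.2 hz.1⟩
    omega
  · obtain ⟨A, hA, hAe⟩ := ind_spec g S
    obtain ⟨B, hB, hBe⟩ := ind_spec g T
    have h1 := ind_le g (union_subset_union hA hB)
    have h2 := ind_le g (inter_subset_inter hA hB)
    have h3 := hs A B
    have h4 : ((S ∪ T) \ (A ∪ B)).card + ((S ∩ T) \ (A ∩ B)).card ≤
        (S \ A).card + (T \ B).card := by
      have e1 : (S \ A).card + (T \ B).card = ((S \ A) ∪ (T \ B)).card + ((S \ A) ∩ (T \ B)).card :=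
        (card_union_add_card_inter _ _).symm
      rw [e1]
      have e2 : ((S ∪ T) \ (A ∪ B)).card + ((S ∩ T) \ (A ∩ B)).card =
          ((S ∪ T) \ (A ∪ B) ∪ (S ∩ T) \ (A ∩ B)).card +
          ((S ∪ T) \ (A ∪ B) ∩ ((S ∩ T) \ (A ∩ B))).card := (card_union_add_card_inter _ _).symm
      rw [e2]
      apply Nat.add_le_add
      · apply card_le_card
        intro z hz
        simp only [mem_union, mem_sdiff, mem_inter, not_or, not_and] at hz ⊢
        rcases hz with ⟨h | h, a, b⟩ | ⟨⟨a, b⟩, c⟩
        · exact Or.inl ⟨h, a⟩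
        · exact Or.inr ⟨h, b⟩
        · by_cases hz : z ∈ A
          · exact Or.inr ⟨b, c hz⟩
          · exact Or.inl ⟨a, hz⟩
      · apply card_le_card
        intro z hz
        simp only [mem_union, mem_sdiff, mem_inter, not_or, not_and] at hz ⊢
        exact ⟨⟨hz.2.1.1, hz.1.2.1⟩, hz.2.1.2, hz.1.2.2⟩
    omega

theorem ind_inv {g : Finset (Sym2 (Fin n)) → ℕ} (hi : Inv g) : Inv (ind g) := by
  have key : ∀ (σ : Equiv.Perm (Fin n)) (S : Finset (Sym2 (Fin n))),
      ind g (S.image (Sym2.map σ)) ≤ ind g S := by
    intro σ S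
    obtain ⟨T, hT, he⟩ := ind_spec g S
    have h1 := ind_le g (image_subset_image hT : T.image (Sym2.map σ) ⊆ S.image (Sym2.map σ))
    rw [hi σ T, ← image_sdiff _ _ (Sym2.map.injective σ.injective),
      card_image_of_injective _ (Sym2.map.injective σ.injective)] at h1
    omega
  intro σ S
  refine le_antisymm (key σ S) ?_
  have h1 := key σ.symm (S.image (Sym2.map σ))
  rw [image_image] at h1
  have h2 : (Sym2.map ⇑σ.symm ∘ Sym2.map ⇑σ) = (id : Sym2 (Fin n) → Sym2 (Fin n)) := by
    funext e
    rw [Function.comp, Sym2.map_map]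
    have : (⇑σ.symm ∘ ⇑σ) = id := by
      funext x; simp
    rw [this, Sym2.map_id]
  rw [h2, image_id] at h1
  exact h1

theorem excess_inv {g : Finset (Sym2 (Fin n)) → ℕ} (h0 : g ∅ = 0)
    (hm : ∀ S T, S ⊆ T → g S ≤ g T) (hs : ∀ S T, g (S ∪ T) + g (S ∩ T) ≤ g S + g T)
    (hi : Inv g) (k : ℕ)
    (h1 : ∃ G : SimpleGraph (Fin n), ∃ F ⊆ edges G, k + g F ≤ F.card)
    (h2 : ∃ G : SimpleGraph (Fin n), ¬ ∃ F ⊆ edges G, k + g F ≤ F.card) :
    Evasive (fun G : SimpleGraph (Fin n) => ∃ F ⊆ edges G, k + g F ≤ F.card) := by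
  have hiff : ∀ G : SimpleGraph (Fin n), (∃ F ⊆ edges G, k + g F ≤ F.card) ↔
      k + ind g (edges G) ≤ (edges G).card := by
    intro G
    constructor
    · rintro ⟨F, hF, hk⟩
      have i1 := ind_le g hF
      rw [card_sdiff_of_subset hF] at i1
      have i2 := card_le_card hF
      omega
    · intro hk
      obtain ⟨F, hF, he⟩ := ind_spec g (edges G)
      rw [card_sdiff_of_subset hF] at he
      have i2 := card_le_card hF
      exact ⟨F, hF, by omega⟩
  simp only [hiff] at h1 h2 ⊢
  exact nullity_inv (ind_isRank h0 hm hs) (ind_inv hi) k h1 h2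

section Vec

variable {K V : Type*} [Field K] [AddCommGroup V] [Module K V] [FiniteDimensional K V]

/-- The rank function of a family of vectors. -/
noncomputable def vr (K : Type*) {V : Type*} [Field K] [AddCommGroup V] [Module K V]
    (v : Sym2 (Fin n) → V) (S : Finset (Sym2 (Fin n))) : ℕ :=
  Module.finrank K (Submodule.span K (v '' (S : Set (Sym2 (Fin n)))))

theorem vr_isRank (v : Sym2 (Fin n) → V) : IsRank (vr K v) := by
  classical
  refine ⟨fun S => ?_, fun S T hST => ?_, fun S T => ?_⟩
  · unfold vr
    rw [← coe_image]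
    exact (finrank_span_finset_le_card _).trans card_image_le
  · exact Submodule.finrank_mono (Submodule.span_mono (Set.image_mono (by exact_mod_cast hST)))
  · unfold vr
    have h1 := Submodule.finrank_sup_add_finrank_inf_eq
      (Submodule.span K (v '' (S : Set (Sym2 (Fin n))))) (Submodule.span K (v '' (T : Set (Sym2 (Fin n)))))
    rw [← h1, coe_union, Set.image_union, Submodule.span_union]
    apply Nat.add_le_add_left
    apply Submodule.finrank_mono
    rw [coe_inter]
    exact le_inf (Submodule.span_mono (Set.image_mono Set.inter_subset_left))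
      (Submodule.span_mono (Set.image_mono Set.inter_subset_right))

end Vec

section Rigid

variable {K : Type*} [Field K] {d : ℕ}

/-- The row of the rigidity matrix which belongs to a pair of vertices. -/
def row (p : Fin n → Fin d → K) : Sym2 (Fin n) → (Fin n → Fin d → K) :=
  Sym2.lift ⟨fun i j k c => ((if k = i then 1 else 0) - (if k = j then 1 else 0)) * (p i c - p j c),
    fun i j => by funext k c; ring⟩

theorem row_mk (p : Fin n → Fin d → K) (i j k : Fin n) (c : Fin d) :
    row p s(i, j) k c = ((if k = i then 1 else 0) - (if k = j then 1 else 0)) * (p i c - p j c) := rfl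

/-- The framework `(G, p)` is infinitesimally rigid. -/
def Rigid (p : Fin n → Fin d → K) (G : SimpleGraph (Fin n)) : Prop :=
  ∀ u : Fin n → Fin d → K, (∀ i j, G.Adj i j → ∑ c, (p i c - p j c) * (u i c - u j c) = 0) →
    ∀ i j, ∑ c, (p i c - p j c) * (u i c - u j c) = 0

theorem pair_row (p u : Fin n → Fin d → K) (i j : Fin n) :
    ∑ k, ∑ c, row p s(i, j) k c * u k c = ∑ c, (p i c - p j c) * (u i c - u j c) := by
  simp only [row_mk]
  rw [sum_comm]
  apply sum_congr rfl
  intro c _
  have h1 : ∀ k : Fin n, ((if k = i then (1 : K) else 0) - (if k = j then 1 else 0)) *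
      (p i c - p j c) * u k c = (p i c - p j c) * ((if k = i then u k c else 0) -
        (if k = j then u k c else 0)) := by
    intro k
    split_ifs <;> ring
  simp only [h1]
  rw [← mul_sum, sum_sub_distrib, sum_ite_eq' univ i, sum_ite_eq' univ j]
  simp

/-- The functional given by `u`. -/
def fn (u : Fin n → Fin d → K) : (Fin n → Fin d → K) →ₗ[K] K where
  toFun x := ∑ k, ∑ c, x k c * u k c
  map_add' x y := by
    simp only [Pi.add_apply, add_mul, sum_add_distrib]
  map_smul' a x := by
    simp only [Pi.smul_apply, smul_eq_mul, RingHom.id_apply, mul_sum, mul_assoc]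

theorem fn_surj (f : (Fin n → Fin d → K) →ₗ[K] K) : ∃ u, ∀ x, f x = fn u x := by
  refine ⟨fun k c => f (Pi.single k (Pi.single c 1)), fun x => ?_⟩
  have hx : x = ∑ k, ∑ c, x k c • (Pi.single k (Pi.single c (1 : K)) : Fin n → Fin d → K) := by
    funext k' c'
    simp only [Finset.sum_apply, Pi.smul_apply, smul_eq_mul, Pi.single_apply]
    rw [sum_eq_single k']
    · rw [sum_eq_single c']
      · simp
      · intro b _ hb
        simp [Ne.symm hb]
      · intro h; exact absurd (mem_univ _) h
    · intro b _ hb
      apply sum_eq_zero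
      intro c _
      simp [Ne.symm hb]
    · intro h; exact absurd (mem_univ _) h
  conv_lhs => rw [hx]
  simp only [map_sum, map_smul, smul_eq_mul]
  rfl

theorem rigid_iff (p : Fin n → Fin d → K) (G : SimpleGraph (Fin n)) :
    Rigid p G ↔ vr K (row p) (E n) ≤ vr K (row p) (edges G) := by
  classical
  have hle : Submodule.span K (row p '' (edges G : Set (Sym2 (Fin n)))) ≤
      Submodule.span K (row p '' (E n : Set (Sym2 (Fin n)))) :=
    Submodule.span_mono (Set.image_mono (by exact_mod_cast edges_sub G))
  constructor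
  · intro hR
    apply Submodule.finrank_mono
    rw [Submodule.span_le]
    rintro _ ⟨e, _, rfl⟩
    by_contra hcon
    obtain ⟨f, hf1, hf2⟩ := Submodule.exists_le_ker_of_notMem hcon
    obtain ⟨u, hu⟩ := fn_surj f
    induction e using Sym2.ind with
    | _ i j =>
      apply hf1
      rw [hu]
      show ∑ k, ∑ c, row p s(i, j) k c * u k c = 0
      rw [pair_row]
      apply hR u
      intro a b hab
      rw [← pair_row]
      have hmem : row p s(a, b) ∈ Submodule.span K (row p '' (edges G : Set (Sym2 (Fin n)))) := by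
        apply Submodule.subset_span
        refine ⟨s(a, b), ?_, rfl⟩
        rw [mem_coe, edges, mem_filter]
        exact ⟨mem_univ _, hab⟩
      have := hf2 hmem
      rw [LinearMap.mem_ker, hu] at this
      exact this
  · intro hr u hu i j
    by_cases hij : i = j
    · subst hij; simp
    have heq := Submodule.eq_of_le_of_finrank_le hle hr
    have hker : Submodule.span K (row p '' (edges G : Set (Sym2 (Fin n)))) ≤ LinearMap.ker (fn u) := by
      rw [Submodule.span_le]
      rintro _ ⟨e, he, rfl⟩
      rw [mem_coe, edges, mem_filter] at he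
      induction e using Sym2.ind with
      | _ a b =>
        show fn u (row p s(a, b)) = 0
        show ∑ k, ∑ c, row p s(a, b) k c * u k c = 0
        rw [pair_row]
        exact hu a b he.2
    have hmem : row p s(i, j) ∈ Submodule.span K (row p '' (E n : Set (Sym2 (Fin n)))) := by
      apply Submodule.subset_span
      refine ⟨s(i, j), ?_, rfl⟩
      rw [mem_coe, mem_E, Sym2.mk_isDiag_iff]
      exact hij
    rw [← heq] at hmem
    have := hker hmem
    rw [← pair_row]
    exact this

theorem rigid_evasive (p : Fin n → Fin d → K) (hn : 2 ≤ n) (hp : Function.Injective p) :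
    Evasive (Rigid p) := by
  classical
  have hl : ∀ e ∈ E n, 1 ≤ vr K (row p) {e} := by
    intro e he
    rw [mem_E] at he
    unfold vr
    rw [coe_singleton, Set.image_singleton, finrank_span_singleton]
    induction e using Sym2.ind with
    | _ i j =>
      rw [Sym2.mk_isDiag_iff] at he
      intro h0
      apply he
      apply hp
      funext c
      have := congrFun (congrFun h0 i) c
      rw [row_mk] at this
      simp only [if_true, if_neg he, sub_zero, one_mul, Pi.zero_apply] at this
      exact sub_eq_zero.1 this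
  have hR := vr_isRank (K := K) (row p)
  have hE : 1 ≤ vr K (row p) (E n) := by
    have hmem : s((⟨0, by omega⟩ : Fin n), (⟨1, by omega⟩ : Fin n)) ∈ E n := by
      rw [mem_E, Sym2.mk_isDiag_iff]
      simp
    exact (hl _ hmem).trans (hR.mono _ _ (singleton_subset_iff.2 hmem))
  have h := rank_evasive hR hl (vr K (row p) (E n)) hE le_rfl
  have : (Rigid p) = fun G : SimpleGraph (Fin n) => vr K (row p) (E n) ≤ vr K (row p) (edges G) := by
    funext G
    exact propext (rigid_iff p G)
  rw [this]
  exact h

end Rigid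

end Pool.Agent.Q295.EV
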